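import Pool.Agent.H884R2.HFP.Cor

/-!
# `1/2`-flow-pairs and 2-factors with any number of odd circuits (MP_e59a69_co)

Let `G` be a cubic graph, `F` a 2-factor of `G`, `U` a set consisting of one vertex of each odd
circuit of `F`, and `τ` a pairing of `U`.  For a vertex set `X` let `q` be the number of pairs with
exactly one end in `X`.  If `5 q ≤ |δ(X)| + 1` for all `X` with fewer than `2 q` edges of `F` in
`δ(X)`, then `G` has a `1/2`-flow-pair `(φ₂, φ₄)` with `φ₂ ≠ 0` exactly on `F`.

Consequence (`separating` below): if `F` has at most `2 t` odd circuits and every edge cut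
separating two odd circuits of `F` has at least `5 t - 1` edges, then the same holds (the bound of
Steffen's theorem on nowhere-zero 5-flows).
-/

universe u v

namespace Pool.Agent.Results.MP_e59a69_co.CutPairing
open Pool.Agent.H160R2.HF Pool.Agent.H884R2.HFP

/-- The pairing theorem. -/
theorem result : ∀ (V : Type u) (E : Type v) [Fintype V] [Fintype E] [DecidableEq V]
    [DecidableEq E] (G : OrGraph V E), G.Cubic →
    ∀ F : Finset E, G.IsTwoFactor F →
    ∀ U : Finset V, OddTransversal G F U →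
    ∀ τ : V → V, (∀ u ∈ U, τ u ∈ U ∧ τ (τ u) = u ∧ τ u ≠ u) →
      (∀ X : Finset V, (G.cut X ∩ F).card < 2 * sep U τ X →
        5 * sep U τ X ≤ (G.cut X).card + 1) →
      ∃ φ₂ φ₄ : E → ℤ, G.IsHalfFlowPair φ₂ φ₄ ∧ ∀ e, φ₂ e ≠ 0 ↔ e ∈ F :=
  fun _ _ _ _ _ _ G hc F hF U hU τ hτ hq => exists_pair_of_transversal G hc F hF U hU τ hτ hq

/-- Consequence: every cut separating two odd circuits of the 2-factor has at least `5 t - 1`
edges, where the 2-factor has at most `2 t` odd circuits. -/
theorem separating : ∀ (V : Type u) (E : Type v) [Fintype V] [Fintype E] [DecidableEq V]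
    [DecidableEq E] (G : OrGraph V E), G.Cubic →
    ∀ F : Finset E, G.IsTwoFactor F → ∀ t : ℕ, G.oddCount F ≤ 2 * t →
      OddSeparating G F (5 * t - 1) →
      ∃ φ₂ φ₄ : E → ℤ, G.IsHalfFlowPair φ₂ φ₄ ∧ ∀ e, φ₂ e ≠ 0 ↔ e ∈ F :=
  fun _ _ _ _ _ _ G hc F hF t ht hs => exists_pair_of_separating G hc F hF t ht hs

end Pool.Agent.Results.MP_e59a69_co.CutPairing
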