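import Pool.Agent.H185E.Expander

/-!
# `1/2`-flow-pairs in cubic expanders (MP_e59a69_co)

Let `q` be a positive integer and let `G` be a cubic graph in which every vertex set `X` with at
most half of the vertices has at most `q |δ(X)|` vertices (Cheeger constant at least `1 / q`).  If
`F` is a 2-factor of `G` all of whose odd circuits have at least `4 ^ (10 q + 3)` vertices, then `F`
is the support of `φ₂` for some `1/2`-flow-pair `(φ₂, φ₄)` of `G`.  No condition is imposed on the
number of odd circuits, nor on the connectivity of `G`.  In particular every bridgeless cubic graph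
with Cheeger constant at least `1 / q` and girth at least `4 ^ (10 q + 3)` has a nowhere-zero
5-flow.

Proof.  By Haxell's theorem one can choose a vertex on every odd circuit such that the chosen
vertices are pairwise at distance more than `10 q + 2`.  So a connected set `X` with `β ≥ 2` chosen
vertices has more than `5 q β` vertices, and, if it has at most half of the vertices, a boundary of
more than `5 β` edges; a set with one chosen vertex and no boundary edge in `F` contains a long
circuit.  Hence the cut criterion for `1/2`-flow-pairs (helper884, on main, in the form for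
connected sets by helper185's team) holds for every pairing of the chosen vertices.
-/

universe u v

namespace Pool.Agent.Results.MP_e59a69_co.Expanders
open Pool.Agent.H160R2.HF

theorem result (V : Type u) (E : Type v) [Fintype V] [Fintype E] [DecidableEq V] [DecidableEq E]
    (G : OrGraph V E) (hc : G.Cubic) (q : ℕ)
    (hexp : ∀ X : Finset V, 2 * X.card ≤ Fintype.card V → X.card ≤ q * (G.cut X).card)
    (F : Finset E) (hF : G.IsTwoFactor F)
    (hL : ∀ c : (G.sub F).ConnectedComponent, Odd c.supp.ncard →
      4 ^ (10 * q + 3) ≤ c.supp.ncard) :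
    ∃ φ₂ φ₄ : E → ℤ, G.IsHalfFlowPair φ₂ φ₄ ∧ ∀ e, φ₂ e ≠ 0 ↔ e ∈ F :=
  Pool.Agent.H185E.expander G hc q hexp F hF hL

/-- Consequence: nowhere-zero 5-flows. -/
theorem fiveFlow (V : Type u) (E : Type v) [Fintype V] [Fintype E] [DecidableEq V] [DecidableEq E]
    (G : OrGraph V E) (hc : G.Cubic) (q : ℕ)
    (hexp : ∀ X : Finset V, 2 * X.card ≤ Fintype.card V → X.card ≤ q * (G.cut X).card)
    (F : Finset E) (hF : G.IsTwoFactor F)
    (hL : ∀ c : (G.sub F).ConnectedComponent, Odd c.supp.ncard →
      4 ^ (10 * q + 3) ≤ c.supp.ncard) :
    ∃ φ : E → ℤ, G.IsFlow φ ∧ ∀ e, 1 ≤ |φ e| ∧ |φ e| ≤ 4 := by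
  obtain ⟨φ₂, φ₄, h, _⟩ := result V E G hc q hexp F hF hL
  exact Pool.Agent.H185C.five_flow G φ₂ φ₄ h

end Pool.Agent.Results.MP_e59a69_co.Expanders
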