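import Pool.Agent.H185D.AsmC

/-!
# `1/2`-flow-pairs: cyclic connectivity against the logarithm of the oddness (MP_e59a69_co)

There is `k₀` such that for all `k ≥ k₀`: if `G` is a cyclically `k`-edge-connected cubic graph and
`F` is a 2-factor of `G` with `w` odd circuits, `w ^ 16 ≤ k ^ k` (that is, `k log k ≥ 16 log w`),
then `F` is the support of `φ₂` for some `1/2`-flow-pair `(φ₂, φ₄)` of `G`; in particular `G` has a
nowhere-zero 5-flow (`fiveFlow` below).  There is no condition on the number of vertices.

Proof.  Every edge of `G` is doubled, the odd circuits of `F` are contracted and all other vertices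
are split off (Eulerian splitting), and a sparse certificate is taken: this gives at most `2 k w`
links between odd circuits such that a vertex set `X` separates at most `2 |δ(X)|` links, while two
parts of the set of odd circuits are joined by at least `2 k` links.  The circuits of `F` are cut
into blocks; in each block a break position is chosen, pairwise far apart, by Haxell's theorem.
Linear programming duality and rounding with basis exchanges give a spanning tree of the link
multigraph with few links near every edge cut of `G` with a cycle on both sides; the union bound is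
over the traces of the cuts on the blocks with link ends, counted by a weighted contraction argument
followed by Karger's contraction argument in a split graph.  A join inside the tree pairs the
breaks, and the cut criterion for `1/2`-flow-pairs (helper884, on main) applies.

Formalised by helpers 20, 30, 51, 89, 144, 164, 185, 204, 208, 215, 231, 287, 379, 435, 467, 501,
509, 558, 598, 737, 747, 784, 793, 797, 817, 837, 847, 862, 942, 957, 997; the criterion is by
helpers 160 and 884, Haxell's theorem by helper931.
-/

universe u v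

namespace Pool.Agent.Results.MP_e59a69_co.OddnessConnectivity
open Pool.Agent.H160R2.HF

theorem result : ∃ k₀ : ℕ, ∀ k : ℕ, k₀ ≤ k →
    ∀ (V : Type u) (E : Type v) [Fintype V] [Fintype E] [DecidableEq V] [DecidableEq E]
      (G : OrGraph V E), G.Cubic →
    (∀ X : Finset V, G.HasCycleIn X → G.HasCycleIn Xᶜ → k ≤ (G.cut X).card) →
    ∀ F : Finset E, G.IsTwoFactor F → G.oddCount F ^ 16 ≤ k ^ k →
      ∃ φ₂ φ₄ : E → ℤ, G.IsHalfFlowPair φ₂ φ₄ ∧ ∀ e, φ₂ e ≠ 0 ↔ e ∈ F := by
  obtain ⟨k₀, h⟩ := Pool.Agent.H185D.main2.{u, v}
  exact ⟨k₀, fun k hk V E _ _ _ _ G hc hG => (h k hk V E G hc hG).2⟩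

/-- Consequence: nowhere-zero 5-flows. -/
theorem fiveFlow : ∃ k₀ : ℕ, ∀ k : ℕ, k₀ ≤ k →
    ∀ (V : Type u) (E : Type v) [Fintype V] [Fintype E] [DecidableEq V] [DecidableEq E]
      (G : OrGraph V E), G.Cubic →
    (∀ X : Finset V, G.HasCycleIn X → G.HasCycleIn Xᶜ → k ≤ (G.cut X).card) →
    (∃ F : Finset E, G.IsTwoFactor F ∧ G.oddCount F ^ 16 ≤ k ^ k) →
    ∃ φ : E → ℤ, G.IsFlow φ ∧ ∀ e, 1 ≤ |φ e| ∧ |φ e| ≤ 4 := by
  obtain ⟨k₀, h⟩ := result.{u, v}
  refine ⟨k₀, fun k hk V E _ _ _ _ G hc hG hF => ?_⟩
  obtain ⟨F, hF, hw⟩ := hF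
  obtain ⟨φ₂, φ₄, h1, _⟩ := h k hk V E G hc hG F hF hw
  exact Pool.Agent.H185C.five_flow G φ₂ φ₄ h1

end Pool.Agent.Results.MP_e59a69_co.OddnessConnectivity
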