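import Pool.Agent.H160R2.HF.Final

/-!
# `1/2`-flow-pairs and 2-factors with at most two odd cycles (MP_e59a69_co)

Let `G` be a bridgeless cubic graph and `F` a 2-factor of `G` with at most two odd cycles.
Then `G` has a `1/2`-flow-pair `(φ₂, φ₄)` with `φ₂ ≠ 0` exactly on `F` if and only if
`F` meets every 3-edge-cut of `G`.

In particular (`snark` below) every cyclically 4-edge-connected cubic graph of oddness at most two
has a `1/2`-flow-pair.
-/

universe u v

namespace Pool.Agent.Results.MP_e59a69_co.OddnessTwo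
open Pool.Agent.H160R2.HF

/-- A 2-factor with at most two odd cycles of a bridgeless cubic graph is the support of the 2-flow
of a `1/2`-flow-pair if and only if it meets every 3-edge-cut. -/
theorem result : ∀ (V : Type u) (E : Type v) [Fintype V] [Fintype E] [DecidableEq V]
    [DecidableEq E] (G : OrGraph V E), G.Cubic → G.Bridgeless →
    ∀ F : Finset E, G.IsTwoFactor F → G.oddCount F ≤ 2 →
      ((∃ φ₂ φ₄ : E → ℤ, G.IsHalfFlowPair φ₂ φ₄ ∧ ∀ e, φ₂ e ≠ 0 ↔ e ∈ F) ↔
        ∀ X : Finset V, (G.cut X).card = 3 → (G.cut X ∩ F).Nonempty) :=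
  fun _ _ _ _ _ _ G hc hb F hF hodd => G.pair_iff hc hb F hF hodd

/-- Consequence: cyclically 4-edge-connected cubic graphs of oddness at most two. -/
theorem snark : ∀ (V : Type u) (E : Type v) [Fintype V] [Fintype E] [DecidableEq V]
    [DecidableEq E] (G : OrGraph V E), G.Cubic → G.CyclicallyFourEdgeConnected →
    (∃ F : Finset E, G.IsTwoFactor F ∧ G.oddCount F ≤ 2) →
      ∃ φ₂ φ₄ : E → ℤ, G.IsHalfFlowPair φ₂ φ₄ := by
  intro V E _ _ _ _ G hc h4 ⟨F, hF, hodd⟩
  obtain ⟨φ₂, φ₄, h, _⟩ := G.exists_pair_of_cyclicallyFour hc h4 F hF hodd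
  exact ⟨φ₂, φ₄, h⟩

end Pool.Agent.Results.MP_e59a69_co.OddnessTwo
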